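import Mathlib

/-!
Definitions for the problem MP_4d2e3d_co: q-matroids, projectivization matroids, representability.
-/

set_option autoImplicit false

open scoped LinearAlgebra.Projectivization

namespace Pool.Agent.QMat

/-- A q-matroid on the `F`-vector space `E` (the field `F` is `F_q` in the application):
a rank function on the subspaces of `E` with `ρ(V) ≤ dim V`, monotone and submodular. -/
structure QMatroid (F E : Type) [Field F] [AddCommGroup E] [Module F E] where
  /-- the rank function -/
  rk : Submodule F E → ℕ
  rk_le_finrank : ∀ V, rk V ≤ Module.finrank F V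
  rk_mono : ∀ U V, U ≤ V → rk U ≤ rk V
  rk_submod : ∀ U V, rk (U ⊔ V) + rk (U ⊓ V) ≤ rk U + rk V

variable {F E : Type} [Field F] [AddCommGroup E] [Module F E]

/-- The rank function `r(A) = ρ(⟨A⟩)` of the projectivization matroid `P(M) = (ℙE, r)`. -/
noncomputable def QMatroid.projRank (M : QMatroid F E) (A : Set (ℙ F E)) : ℕ :=
  M.rk (⨆ p ∈ A, p.submodule)

/-- A finite set `α` with rank function `r` is `K`-representable: after a bijection of `α` with
`{1, …, n}`, `r(A)` is the `K`-rank of the columns indexed by `A` of some `k × n` matrix. -/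
def IsRepresentable (K : Type) [Field K] {α : Type} (r : Set α → ℕ) : Prop :=
  ∃ (k n : ℕ) (G : Matrix (Fin k) (Fin n) K) (e : α ≃ Fin n), ∀ A : Set α,
    r A = Module.finrank K (Submodule.span K ((fun j => G.col j) '' (e '' A)))

/-- The q-matroid `M` is `K`-representable, `K` an extension field of `F`: after an `F`-linear
bijection `e` of `E` with `F ^ n`, one has `ρ(V) = rk_K (G * Y)` for some `k × n` matrix `G` over
`K` and every matrix `Y` over `F` whose column space is `V`. -/
def QMatroid.IsRepresentable (K : Type) [Field K] [Algebra F K] (M : QMatroid F E) : Prop :=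
  ∃ (k n : ℕ) (G : Matrix (Fin k) (Fin n) K) (e : E ≃ₗ[F] (Fin n → F)),
    ∀ (V : Submodule F E) (l : ℕ) (Y : Matrix (Fin n) (Fin l) F),
      Submodule.span F (Set.range (fun j => Y.col j)) = V.map e.toLinearMap →
        M.rk V = (G * Y.map (algebraMap F K)).rank

end Pool.Agent.QMat
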